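import Pool.Agent.Results.MP_64d585_al.Extension
import Pool.Agent.Run7.h676.CS.Main

/-!
# MP_64d585_al, Q2: extension with a prescribed set of eigenvalues

Proof in outline.  Let `N'` be maximal among the `A`-invariant `(HA, φ)`-neutral subspaces which
contain `N` and on which all eigenvalues with nonzero real part lie in `𝒮`.  Two invariant subspaces
without eigenvalues `λ`, `ν` with `λ` similar to `-ν` are orthogonal (`lemO`), so `N'` contains every
invariant subspace all of whose eigenvalues lie in `𝒮` (absorption).  Extend `N'` to an invariant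
maximal nonnegative subspace `L` by the theorem of the starting library.  If `x` in `L` is an
eigenvector for `μ` with nonzero real part and `μ` is not in `𝒮`, then `-μ` is in `𝒮`; `x` is neutral
and so orthogonal to `L`; an invariant subspace `M` minimal among those not orthogonal to `x` has only
eigenvalues similar to `-μ`, so it is contained in `N'`, a contradiction.
-/

set_option autoImplicit false

namespace Pool.Agent.Results.MP_64d585_al.PrescribedEigenvalues

open Quaternion MulOpposite Matrix Pool.Agent.R713 Pool.Agent.Results.MP_64d585_al.Extension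

/-- `l` is an eigenvalue of `A` on the subspace `M`: `A x = x l` for some nonzero `x` in `M`. -/
def EigenvalueOn {n : ℕ} (A : Matrix (Fin n) (Fin n) ℍ[ℝ]) (M : Sub n) (l : ℍ[ℝ]) : Prop :=
  ∃ x ∈ M, x ≠ 0 ∧ A *ᵥ x = op l • x

/-- `l` and `m` are similar quaternions. -/
def Similar (l m : ℍ[ℝ]) : Prop := ∃ u : ℍ[ℝ], u ≠ 0 ∧ m = u⁻¹ * l * u

/-- `S` is a set of eigenvalues of `A` with nonzero real parts, closed under similarity, such that
`l ∈ S` implies `-l ∉ S`. -/
structure PreCSet {n : ℕ} (A : Matrix (Fin n) (Fin n) ℍ[ℝ]) (S : Set ℍ[ℝ]) : Prop where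
  eig : ∀ l ∈ S, EigenvalueOn A ⊤ l
  re_ne : ∀ l ∈ S, l.re ≠ 0
  similar : ∀ l ∈ S, ∀ m, Similar l m → m ∈ S
  neg : ∀ l ∈ S, -l ∉ S

/-- `S` is a c-set of `A`: inclusion-maximal among the sets above. -/
def CSet {n : ℕ} (A : Matrix (Fin n) (Fin n) ℍ[ℝ]) (S : Set ℍ[ℝ]) : Prop :=
  PreCSet A S ∧ ∀ S' : Set ℍ[ℝ], PreCSet A S' → S ⊆ S' → S' = S

theorem Similar.re {l m : ℍ[ℝ]} (h : Similar l m) : m.re = l.re := by
  obtain ⟨u, hu, rfl⟩ := h
  rw [mul_assoc, Run7.h676.CS.re_comm, mul_assoc, mul_inv_cancel₀ hu, mul_one]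

theorem Similar.symm {l m : ℍ[ℝ]} (h : Similar l m) : Similar m l := by
  obtain ⟨u, hu, rfl⟩ := h
  refine ⟨u⁻¹, inv_ne_zero hu, ?_⟩
  rw [inv_inv, mul_assoc, mul_assoc, mul_assoc, mul_inv_cancel₀ hu, mul_one, ← mul_assoc,
    mul_inv_cancel₀ hu, one_mul]

theorem Similar.trans {l m k : ℍ[ℝ]} (h : Similar l m) (h' : Similar m k) : Similar l k := by
  obtain ⟨u, hu, rfl⟩ := h
  obtain ⟨w, hw, rfl⟩ := h'
  refine ⟨u * w, mul_ne_zero hu hw, ?_⟩
  rw [_root_.mul_inv_rev]
  simp only [mul_assoc]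

theorem Similar.neg {l m : ℍ[ℝ]} (h : Similar l m) : Similar (-l) (-m) := by
  obtain ⟨u, hu, rfl⟩ := h
  exact ⟨u, hu, by rw [mul_neg, neg_mul]⟩

theorem Similar.refl (l : ℍ[ℝ]) : Similar l l := ⟨1, one_ne_zero, by simp⟩

theorem comm_of {u l m : ℍ[ℝ]} (h1 : m.re = l.re) (hu : u.re = 0)
    (e0 : u.imI * m.imI + u.imJ * m.imJ + u.imK * m.imK =
      l.imI * u.imI + l.imJ * u.imJ + l.imK * u.imK)
    (e1 : u.imJ * m.imK - u.imK * m.imJ = l.imJ * u.imK - l.imK * u.imJ)
    (e2 : u.imK * m.imI - u.imI * m.imK = l.imK * u.imI - l.imI * u.imK)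
    (e3 : u.imI * m.imJ - u.imJ * m.imI = l.imI * u.imJ - l.imJ * u.imI) : u * m = l * u := by
  apply Quaternion.ext
  · rw [Quaternion.re_mul, Quaternion.re_mul, hu]; linarith
  · rw [Quaternion.imI_mul, Quaternion.imI_mul, hu, h1]; linarith
  · rw [Quaternion.imJ_mul, Quaternion.imJ_mul, hu, h1]; linarith
  · rw [Quaternion.imK_mul, Quaternion.imK_mul, hu, h1]; linarith

/-- quaternions with the same real part and the same norm are similar -/
theorem similar_of {l m : ℍ[ℝ]} (h1 : m.re = l.re) (h2 : normSq m = normSq l) : Similar l m := by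
  rw [Quaternion.normSq_def', Quaternion.normSq_def', h1] at h2
  have h3 : l.imI ^ 2 + l.imJ ^ 2 + l.imK ^ 2 = m.imI ^ 2 + m.imJ ^ 2 + m.imK ^ 2 := by linarith
  suffices hs : ∃ u : ℍ[ℝ], u ≠ 0 ∧ u * m = l * u by
    obtain ⟨u, hu, he⟩ := hs
    refine ⟨u, hu, ?_⟩
    rw [mul_assoc, ← he, ← mul_assoc, inv_mul_cancel₀ hu, one_mul]
  by_cases hv : (⟨0, l.imI + m.imI, l.imJ + m.imJ, l.imK + m.imK⟩ : ℍ[ℝ]) = 0
  · have a1 : l.imI + m.imI = 0 := congrArg (fun q : ℍ[ℝ] => q.imI) hv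
    have a2 : l.imJ + m.imJ = 0 := congrArg (fun q : ℍ[ℝ] => q.imJ) hv
    have a3 : l.imK + m.imK = 0 := congrArg (fun q : ℍ[ℝ] => q.imK) hv
    have b1 : m.imI = -l.imI := by linarith
    have b2 : m.imJ = -l.imJ := by linarith
    have b3 : m.imK = -l.imK := by linarith
    by_cases hl : l.imI = 0 ∧ l.imJ = 0
    · refine ⟨⟨0, 1, 0, 0⟩, ?_, comm_of h1 rfl ?_ ?_ ?_ ?_⟩
      · intro h0
        have h5 : (1 : ℝ) = 0 := congrArg (fun q : ℍ[ℝ] => q.imI) h0
        exact one_ne_zero h5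
      · change (1 : ℝ) * m.imI + 0 * m.imJ + 0 * m.imK = l.imI * 1 + l.imJ * 0 + l.imK * 0
        rw [b1, hl.1]; ring
      · change (0 : ℝ) * m.imK - 0 * m.imJ = l.imJ * 0 - l.imK * 0
        ring
      · change (0 : ℝ) * m.imI - 1 * m.imK = l.imK * 1 - l.imI * 0
        rw [b3]; ring
      · change (1 : ℝ) * m.imJ - 0 * m.imI = l.imI * 0 - l.imJ * 1
        rw [b2, hl.2]; ring
    · refine ⟨⟨0, -l.imJ, l.imI, 0⟩, ?_, comm_of h1 rfl ?_ ?_ ?_ ?_⟩
      · intro h0
        apply hl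
        have c1 : -l.imJ = 0 := congrArg (fun q : ℍ[ℝ] => q.imI) h0
        have c2 : l.imI = 0 := congrArg (fun q : ℍ[ℝ] => q.imJ) h0
        exact ⟨c2, by linarith⟩
      · change -l.imJ * m.imI + l.imI * m.imJ + 0 * m.imK =
          l.imI * (-l.imJ) + l.imJ * l.imI + l.imK * 0
        rw [b1, b2]; ring
      · change l.imI * m.imK - 0 * m.imJ = l.imJ * 0 - l.imK * l.imI
        rw [b3]; ring
      · change 0 * m.imI - -l.imJ * m.imK = l.imK * (-l.imJ) - l.imI * 0
        rw [b3]; ring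
      · change -l.imJ * m.imJ - l.imI * m.imI = l.imI * l.imI - l.imJ * (-l.imJ)
        rw [b1, b2]; ring
  · refine ⟨_, hv, comm_of h1 rfl ?_ ?_ ?_ ?_⟩
    · change (l.imI + m.imI) * m.imI + (l.imJ + m.imJ) * m.imJ + (l.imK + m.imK) * m.imK =
        l.imI * (l.imI + m.imI) + l.imJ * (l.imJ + m.imJ) + l.imK * (l.imK + m.imK)
      linarith
    · change (l.imJ + m.imJ) * m.imK - (l.imK + m.imK) * m.imJ =
        l.imJ * (l.imK + m.imK) - l.imK * (l.imJ + m.imJ)
      ring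
    · change (l.imK + m.imK) * m.imI - (l.imI + m.imI) * m.imK =
        l.imK * (l.imI + m.imI) - l.imI * (l.imK + m.imK)
      ring
    · change (l.imI + m.imI) * m.imJ - (l.imJ + m.imJ) * m.imI =
        l.imI * (l.imJ + m.imJ) - l.imJ * (l.imI + m.imI)
      ring

variable {n : ℕ} {φ : ℍ[ℝ] →ₗ[ℝ] ℍ[ℝ]}

/-- the kernel of the form is the kernel of `A` -/
theorem nondeg (hφ : NonstandardInvolution φ) {β : ℍ[ℝ]} (hβ : φ β = -β) (hn : normSq β = 1)
    (H A : Matrix (Fin n) (Fin n) ℍ[ℝ]) (hH : IsUnit H) (hG : phiT φ (H * A) = -(H * A))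
    (x : Fin n → ℍ[ℝ]) (h : ∀ y, β⁻¹ * pair φ (H * A) x y = 0) : A *ᵥ x = 0 := by
  have hb : β ≠ 0 := by
    intro h0
    rw [h0] at hn
    simp at hn
  have h1 : ∀ y, pair φ (H * A) y x = 0 := by
    intro y
    have e := (qherm hφ hβ hn (H * A) hG).symm x y
    simp only [h y, star_zero] at e
    exact (mul_eq_zero.1 e).resolve_left (inv_ne_zero hb)
  have h2 : (H * A) *ᵥ x = 0 := by
    funext i
    have e := h1 (Pi.single i 1)
    have e2 : (fun j => φ ((Pi.single i (1 : ℍ[ℝ]) : Fin n → ℍ[ℝ]) j)) = Pi.single i 1 := by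
      funext j
      by_cases hij : j = i
      · subst hij
        simp [phi_one hφ]
      · simp [Pi.single_eq_of_ne hij]
    rw [pair, e2, single_one_dotProduct] at e
    exact e
  obtain ⟨H', hH'⟩ := hH.exists_left_inv
  rw [← Matrix.mulVec_mulVec] at h2
  have h3 := congrArg (fun v => H' *ᵥ v) h2
  simp only [Matrix.mulVec_mulVec, Matrix.mulVec_zero] at h3
  rw [← Matrix.mul_assoc, hH', Matrix.one_mul] at h3
  exact h3

theorem nonneg_version (hφ : NonstandardInvolution φ) {β : ℍ[ℝ]} (hβ : φ β = -β)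
    (hn : normSq β = 1) (H A : Matrix (Fin n) (Fin n) ℍ[ℝ]) (hHu : IsUnit H) (hH : phiT φ H = H)
    (hA : H * A = -(phiT φ A * H)) (N : Sub n) (hN : Invariant A N)
    (hneu : Neutral φ (H * A) N) (S : Set ℍ[ℝ]) (hS : CSet A S)
    (hNS : ∀ l : ℍ[ℝ], EigenvalueOn A N l → l.re ≠ 0 → l ∈ S) :
    ∃ L : Sub n, N ≤ L ∧ Invariant A L ∧ Extension.Maximal (Nonneg φ β (H * A)) L ∧
      S = {l | EigenvalueOn A L l ∧ l.re ≠ 0} := by
  have hG : phiT φ (H * A) = -(H * A) := by
    rw [phiT_mul hφ, hH, hA, neg_neg]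
  obtain ⟨hpre, hmax⟩ := hS
  have S5 : ∀ m : ℍ[ℝ], (∃ x, x ≠ 0 ∧ lin A x = op m • x) → m.re ≠ 0 → m ∈ S ∨ -m ∈ S := by
    rintro m ⟨x, hx0, hx⟩ hm
    by_contra hcon
    push Not at hcon
    obtain ⟨hm1, hm2⟩ := hcon
    have hpre' : PreCSet A (S ∪ {v | Similar m v}) := by
      refine ⟨?_, ?_, ?_, ?_⟩
      · rintro l (hl | ⟨u, hu, rfl⟩)
        · exact hpre.eig l hl
        · refine ⟨op u • x, Submodule.mem_top, smul_ne_zero (by simpa using hu) hx0, ?_⟩
          have e : A *ᵥ (op u • x) = op u • (A *ᵥ x) := Matrix.mulVec_smul A (op u) x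
          have e2 : A *ᵥ x = op m • x := hx
          rw [e, e2, smul_smul, smul_smul, ← op_mul, ← op_mul]
          congr 2
          rw [mul_assoc, ← mul_assoc u, mul_inv_cancel₀ hu, one_mul]
      · rintro l (hl | hl)
        · exact hpre.re_ne l hl
        · rw [Similar.re hl]; exact hm
      · rintro l (hl | hl) k hk
        · exact Or.inl (hpre.similar l hl k hk)
        · exact Or.inr (Similar.trans hl hk)
      · rintro l (hl | hl) (hk | hk)
        · exact hpre.neg l hl hk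
        · apply hm2
          have e := (Similar.symm hk).neg
          rw [neg_neg] at e
          exact hpre.similar l hl _ e
        · apply hm2
          exact hpre.similar _ hk _ (Similar.symm hl).neg
        · have e1 := Similar.re hl
          have e2 := Similar.re hk
          rw [Quaternion.re_neg] at e2
          exact hm (by linarith)
    have he := hmax _ hpre' Set.subset_union_left
    apply hm1
    rw [← he]
    exact Or.inr (Similar.refl m)
  obtain ⟨L, h1, h2, h3, h4, h5⟩ := Run7.h676.CS.main_abs (qherm hφ hβ hn (H * A) hG) (lin A)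
    (skew hφ β H A hA) (nondeg hφ hβ hn H A hHu hG) S
    (fun l hl => by
      obtain ⟨x, _, hx0, hx⟩ := hpre.eig l hl
      exact ⟨x, hx0, hx⟩)
    hpre.re_ne (fun l hl m e1 e2 => hpre.similar l hl m (similar_of e1 e2)) hpre.neg S5 N hN
    (fun x hx y hy => by simp only [hneu y hy x hx, mul_zero]) hNS
  have hn' : ∀ M : Sub n, Nonneg φ β (H * A) M ↔
      QNonneg (fun x y : Fin n → ℍ[ℝ] => β⁻¹ * pair φ (H * A) x y) M := by
    intro M
    constructor
    · intro h x hx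
      obtain ⟨r, hr, he⟩ := h x hx
      simp only [he]
      rw [Quaternion.re_coe]
      exact hr
    · intro h' x hx
      exact ⟨_, h' x hx, (qherm hφ hβ hn (H * A) hG).real x⟩
  refine ⟨L, h1, h2, ⟨(hn' L).2 h3, fun M hM hM' => h4 M hM ((hn' M).1 hM')⟩, ?_⟩
  ext l
  constructor
  · intro hl
    exact ⟨(h5 l (hpre.re_ne l hl)).2 hl, hpre.re_ne l hl⟩
  · rintro ⟨hl, hl0⟩
    exact (h5 l hl0).1 hl

/-- Let `φ` be a nonstandard involution, `φ β = -β`, `|β| = 1`, `H` invertible and `φ`-hermitian, `A`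
`(H, φ)`-skewsymmetric, and `N` an `A`-invariant `(HA, φ)`-neutral subspace.  For every c-set `S` of `A`
which contains the eigenvalues of `A` on `N` with nonzero real part there are `A`-invariant subspaces
containing `N`, one maximal `(HA, φ)`-nonnegative and one maximal `(HA, φ)`-nonpositive, such that
`S` is exactly the set of the eigenvalues of `A` on them with nonzero real part. -/
theorem result (φ : ℍ[ℝ] →ₗ[ℝ] ℍ[ℝ]) (hφ : NonstandardInvolution φ) (β : ℍ[ℝ])
    (hβ : φ β = -β) (hβ1 : ‖β‖ = 1) (n : ℕ) (H A : Matrix (Fin n) (Fin n) ℍ[ℝ])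
    (hHu : IsUnit H) (hH : phiT φ H = H) (hA : H * A = -(phiT φ A * H)) (N : Sub n)
    (hN : Invariant A N) (hneu : Neutral φ (H * A) N) (S : Set ℍ[ℝ]) (hS : CSet A S)
    (hNS : {l | EigenvalueOn A N l ∧ l.re ≠ 0} ⊆ S) :
    (∃ L : Sub n, N ≤ L ∧ Invariant A L ∧ Extension.Maximal (Nonneg φ β (H * A)) L ∧
      S = {l | EigenvalueOn A L l ∧ l.re ≠ 0}) ∧
    (∃ L : Sub n, N ≤ L ∧ Invariant A L ∧ Extension.Maximal (Nonpos φ β (H * A)) L ∧
      S = {l | EigenvalueOn A L l ∧ l.re ≠ 0}) := by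
  have hnβ : normSq β = 1 := by
    rw [Quaternion.normSq_eq_norm_mul_self, hβ1, mul_one]
  have hNS' : ∀ l : ℍ[ℝ], EigenvalueOn A N l → l.re ≠ 0 → l ∈ S := fun l h1 h2 => hNS ⟨h1, h2⟩
  refine ⟨nonneg_version hφ hβ hnβ H A hHu hH hA N hN hneu S hS hNS', ?_⟩
  have hH' : phiT φ (-H) = -H := by
    conv_rhs => rw [← hH]
    ext1 i j
    simp only [phiT, Matrix.of_apply, Matrix.neg_apply, map_neg]
  have hmul : -H * A = -(H * A) := neg_mul H A
  obtain ⟨L, h1, h2, ⟨h3, h4⟩, h5⟩ := nonneg_version hφ hβ hnβ (-H) A hHu.neg hH'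
    (by rw [neg_mul, hA, mul_neg]) N hN
    (by
      intro x hx y hy
      rw [hmul, pair_neg, hneu x hx y hy, neg_zero]) S hS hNS'
  rw [hmul] at h3 h4
  have hn : ∀ M : Sub n, Nonneg φ β (-(H * A)) M ↔ Nonpos φ β (H * A) M := by
    intro M
    constructor
    · intro h x hx
      obtain ⟨r, hr, he⟩ := h x hx
      refine ⟨-r, by linarith, ?_⟩
      rw [pair_neg, mul_neg] at he
      rw [Quaternion.coe_neg, ← he, neg_neg]
    · intro h x hx
      obtain ⟨r, hr, he⟩ := h x hx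
      refine ⟨-r, by linarith, ?_⟩
      rw [pair_neg, mul_neg, he, Quaternion.coe_neg]
  exact ⟨L, h1, h2, ⟨(hn L).1 h3, fun M hM hM' => h4 M hM ((hn M).2 hM')⟩, h5⟩

end Pool.Agent.Results.MP_64d585_al.PrescribedEigenvalues
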